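import Pool.Agent.H18.D2.End
import Pool.Agent.H3.W.Nlp
import Pool.Agent.H31.W.H18.D2.End
import Pool.Agent.H31.W.H46.D2.NoLb
import Pool.Agent.H31.W1.H80.GEN.Chn

/-!
# The end: the label of the target from the labels of the tube

`EH`: the facts on the lines of an event. `en_lab`: if the differences of the chart of the ball and
the tube labels at the nodes are small on the window of the ball, then the chart of the ball is a
label of the target, closed on the window `w`, on the natural boxes of the radius `w + Q + 1`.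
-/

set_option autoImplicit false

namespace Pool.W.END18

open Pool.END18

open Finset Real MvPolynomial
open Pool.Agent.H49.Ent Pool.Agent.H32.Dense Pool.STK Pool.KA Pool.KSAT Pool.K2S Pool.PB Pool.S6C
open Pool.GEN Pool.CHT Pool.D2R Pool.D2G30 Pool.V1E Pool.ISO
open Pool.PB.Trl (rt rt_mem t_rt)
open Pool.NLB46 (Lab)


variable {m J : ℕ}


/-- **The facts on the lines of an event**: frame of the window `w - q₀`, re-centred at the radius
`w + Q`; chart of the ball of the target, closed on the window `w + Q`; closed chart `H₁` of the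
target on the window `w`; centre `z₀ + z₁ u` of the tube. -/
structure EH (F : Pool.KA.Fam m J) (c : ℕ → Fin m) (s gc : ℕ → ℕ) (d Dc w q₀ Q e X p : ℕ)
    (A : F.Ω → Prop) (G₀ : Pool.GEN.PtT F → ℕ → MvPolynomial (Option (Fin m)) ℝ)
    (G₂ : Pool.GEN.PtT F → MvPolynomial (Option (Fin m)) ℝ)
    (H₀ : Pool.GEN.LnT F → ℕ → MvPolynomial (Option (Fin m)) ℝ)
    (H₁ H₂ : Pool.GEN.LnT F → MvPolynomial (Option (Fin m)) ℝ) (z₀ z₁ : Pool.GEN.LnT F → Fin d → ℝ) : Prop where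
  inj : Set.InjOn c (Set.Iio d)
  Dc1 : 1 ≤ Dc
  wQ : w + Q ≤ J
  qw : q₀ ≤ w
  cl : ∀ ω, A ω → G₂ (Pool.PB.ptr F J ω) = H₂ (Pool.KSAT.slam F (w + Q) ω)
  dG₀ : ∀ y l, (G₀ y l).totalDegree ≤ Dc
  dH₀ : ∀ L l, (H₀ L l).totalDegree ≤ Dc
  pH₀ : ∀ L l, Pool.GEN.DepC c l (H₀ L l)
  dH₁ : ∀ L, (H₁ L).totalDegree ≤ Dc
  pH₁ : ∀ L, Pool.GEN.DepC c d (H₁ L)
  dG₂ : ∀ y, (G₂ y).totalDegree ≤ Dc
  pG₂ : ∀ y, Pool.GEN.DepC c d (G₂ y)
  dH₂ : ∀ L, (H₂ L).totalDegree ≤ Dc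
  pH₂ : ∀ L, Pool.GEN.DepC c d (H₂ L)
  pos : ∀ ω, A ω → |F.x ω (c d) - eval (Pool.GEN.bt F ω) (G₂ (Pool.PB.ptr F J ω))| ≤ 1 / 2 ^ p
  top : Pool.W.GEN.ChOK F c d (fun _ => Dc) (w + Q) (w - q₀) e gc A (Pool.END18.Gf F c G₀) (Pool.END18.Hf F c H₀)
  gcs : ∀ l < d, Q + s l ≤ gc l + X
  own : ∀ ω, A ω → ∀ u : ℝ, |u| ≤ 2 → ∀ i : Fin d,
    |2 ^ Q * (Pool.V1E.hL c s d w (Pool.V1E.frH F d q₀ H₀ (Pool.KSAT.slam F w ω)) (Pool.KSAT.slam F w ω) (some i)).eval u -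
      (z₀ (Pool.KSAT.slam F w ω) i + z₁ (Pool.KSAT.slam F w ω) i * u)| ≤ 2
  grd : ∀ ω, A ω → ∀ b, Pool.GEN.NBx c (Pool.END18.Gf F c G₀ (Pool.PB.ptr F J ω)) gc (w + Q) (F.t ω) d b → ∀ l < d,
    |eval b (pderiv (some (c l)) (H₁ (Pool.KSAT.slam F w ω)))| ≤
      2 ^ (e + Pool.W.GEN.nlp (fun j => if j < d then gc j else p) l d)

theorem EH.en {F : Pool.KA.Fam m J} {c : ℕ → Fin m} {s gc : ℕ → ℕ} {d Dc w q₀ Q e X p : ℕ}
    {A : F.Ω → Prop} {G₀ : Pool.GEN.PtT F → ℕ → MvPolynomial (Option (Fin m)) ℝ}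
    {G₂ : Pool.GEN.PtT F → MvPolynomial (Option (Fin m)) ℝ}
    {H₀ : Pool.GEN.LnT F → ℕ → MvPolynomial (Option (Fin m)) ℝ}
    {H₁ H₂ : Pool.GEN.LnT F → MvPolynomial (Option (Fin m)) ℝ} {z₀ z₁ : Pool.GEN.LnT F → Fin d → ℝ}
    (h : Pool.W.END18.EH F c s gc d Dc w q₀ Q e X p A G₀ G₂ H₀ H₁ H₂ z₀ z₁) :
    Pool.W.END18.EN F c s gc d Dc w q₀ Q e X A G₀ G₂ H₀ H₁ H₂ z₀ z₁ :=
  ⟨h.inj, h.Dc1, h.wQ, h.qw, h.cl, h.dG₀, h.dH₀, h.pH₀, h.dH₁, h.pH₁, h.dG₂, h.pG₂, h.dH₂, h.pH₂,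
    h.top, h.gcs, h.own⟩


section det

variable {F : Pool.KA.Fam m J} {c : ℕ → Fin m} {s gc : ℕ → ℕ} {K d Dc w q₀ Q e X p : ℕ}
  {A : F.Ω → Prop} {G₀ : Pool.GEN.PtT F → ℕ → MvPolynomial (Option (Fin m)) ℝ}
  {G₂ : Pool.GEN.PtT F → MvPolynomial (Option (Fin m)) ℝ}
  {H₀ : Pool.GEN.LnT F → ℕ → MvPolynomial (Option (Fin m)) ℝ}
  {H₁ H₂ : Pool.GEN.LnT F → MvPolynomial (Option (Fin m)) ℝ} {z₀ z₁ : Pool.GEN.LnT F → Fin d → ℝ}


/-- **The label of the target**: precision `p'`, gradient exponent `e'`. -/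
theorem en_lab (d Dc K D : ℕ) (hd : 1 ≤ d) (hK : 1 ≤ K) (hDK : Dc * (Dc + 1) ^ d ≤ K) : ∃ C : ℝ,
    1 ≤ C ∧ ∀ {m J : ℕ} {F : Pool.KA.Fam m J} {c : ℕ → Fin m} {s gc : ℕ → ℕ} {w q₀ Q e e' X p p' : ℕ}
    {A B : F.Ω → Prop} {G₀ : Pool.GEN.PtT F → ℕ → MvPolynomial (Option (Fin m)) ℝ}
    {G₂ : Pool.GEN.PtT F → MvPolynomial (Option (Fin m)) ℝ}
    {H₀ : Pool.GEN.LnT F → ℕ → MvPolynomial (Option (Fin m)) ℝ}
    {H₁ H₂ : Pool.GEN.LnT F → MvPolynomial (Option (Fin m)) ℝ} {z₀ z₁ : Pool.GEN.LnT F → Fin d → ℝ}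
    {Pt : Pool.GEN.LnT F → Pool.V1E.Gr K d → Polynomial ℝ} {μ ν : ℝ},
    Pool.W.END18.EH F c s gc d Dc w q₀ Q e X p A G₀ G₂ H₀ H₁ H₂ z₀ z₁ → Pool.K2S.Sub B A →
    (∀ L β, (Pt L β).natDegree ≤ D) →
    (∀ ω, B ω → ∀ β, ∀ j ≤ max K D,
      |(Pool.END18.Rt F c s K d w q₀ Q H₀ H₁ H₂ z₀ z₁ Pt β (Pool.KSAT.slam F (w + Q) ω)).coeff j| ≤ μ) →
    (∀ ω, B ω → ∀ β, ∀ j ≤ max K D, |(Pt (Pool.KSAT.slam F w ω) β).coeff j| ≤ ν) →
    p' ≤ p → e + 1 ≤ e' → C * 2 ^ (X * K * d) * μ * 2 ^ p' ≤ 2 ^ s d →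
    C * 2 ^ (X * K * d) * (μ + ν) * 2 ^ (e + p') ≤ 2 ^ e' * 2 ^ s d →
    Pool.W.GEN.ChOK F c d (fun _ => Dc) (w + Q + 1) w e' gc B (Pool.END18.Gf F c G₀) (fun L l => Pool.END18.Hf F c H₀ (Pool.D2R.co q₀ L) l) ∧
    Pool.W.NLB46.Lab F c d (Dc + d * (K * Dc) + D) (w + Q + 1) w e' p' gc (Pool.END18.Gf F c G₀) B G₂
      (Pool.END18.Ht F c s K d w q₀ Q H₀ H₁ z₀ z₁ Pt) := by
  obtain ⟨C₀, hC₀, hgr⟩ := Pool.W.END18.grad_box d Dc Dc
  obtain ⟨C, hC⟩ : ∃ C : ℝ, C = 2 * C₀ * Pool.END18.cE K d D := ⟨_, rfl⟩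
  have hcE := Pool.END18.one_le_cE K d D
  have hC1 : Pool.END18.cE K d D ≤ C := by
    rw [hC]
    nlinarith
  refine ⟨C, hcE.trans hC1, ?_⟩
  intro m J F c s gc w q₀ Q e e' X p p' A B G₀ G₂ H₀ H₁ H₂ z₀ z₁ Pt μ ν h hB hPt hμ hν hp he h1 h2
  have hwJ : w ≤ J := (Nat.le_add_right w Q).trans h.wQ
  have hco : ∀ ω, Pool.D2R.co q₀ (Pool.KSAT.slam F w ω) = Pool.KSAT.slam F (w - q₀) ω := by
    intro ω
    have := Pool.D2R.co_slam F (Nat.sub_le w q₀) hwJ ω
    rwa [Nat.sub_sub_self h.qw] at this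
  have hX0 : (0 : ℝ) < 2 ^ (X * K * d) := by positivity
  constructor
  · have h3 := h.top
    refine ⟨h3.degG, fun L i => h3.degH _ i, h3.depG, fun L i => h3.depH _ i,
      fun ω hω => h3.pos ω (hB ω hω), fun ω hω i hi b hb => ?_, fun ω hω i hi b hb l hl => ?_⟩
    · rw [hco]
      exact h3.agr ω (hB ω hω) i hi b (hb.mono (by omega) le_rfl)
    · exact (h3.lip ω (hB ω hω) i hi b (hb.mono (by omega) le_rfl) l hl).trans
        (pow_le_pow_right₀ (by norm_num) (by omega))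
  · refine ⟨fun y => (h.dG₂ y).trans (by omega), fun L => ?_, h.pG₂, fun L => ?_, fun ω hω =>
      (h.pos ω (hB ω hω)).trans (Pool.PB.inv_mono hp), fun ω hω b hb => ?_, fun ω hω b hb l hl => ?_⟩
    · exact Pool.END18.deg_enH h.Dc1 (Pool.END18.deg_trn (h.dH₀ _)) (h.dH₁ L) _ _ _ (hPt L)
    · exact Pool.END18.dep_enH (Pool.END18.dep_trn (h.pH₀ _)) (h.pH₁ L) _ _ _ _
    · have hb' := hb.mono (a := w + Q) (by omega) le_rfl
      refine (h.en.agr hK hDK hPt (hB ω hω) (hμ ω hω) hb').trans ?_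
      have hμ0 : 0 ≤ μ := (abs_nonneg _).trans (hμ ω hω (fun _ => 0) 0 (Nat.zero_le _))
      rw [div_le_div_iff₀ (by positivity) (by positivity), one_mul]
      refine le_trans ?_ h1
      refine mul_le_mul_of_nonneg_right (mul_le_mul_of_nonneg_right
        (mul_le_mul_of_nonneg_right hC1 hX0.le) hμ0) (by positivity)
    · have hμ0 : 0 ≤ μ := (abs_nonneg _).trans (hμ ω hω (fun _ => 0) 0 (Nat.zero_le _))
      have hν0 : 0 ≤ ν := (abs_nonneg _).trans (hν ω hω (fun _ => 0) 0 (Nat.zero_le _))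
      have hb' := hb.mono (a := w + Q) (by omega) le_rfl
      obtain ⟨M, hM⟩ : ∃ M : ℝ, M = Pool.END18.cE K d D * 2 ^ (X * K * d) * (μ + ν) / 2 ^ s d := ⟨_, rfl⟩
      have hM0 : 0 ≤ M := by rw [hM]; positivity
      -- the box around `b`
      have hbig : ∀ b', Pool.GEN.NBx c (Pool.END18.Gf F c G₀ (Pool.PB.ptr F J ω)) gc (w + Q + 1) (b none) d b' →
          Pool.GEN.NBx c (Pool.END18.Gf F c G₀ (Pool.PB.ptr F J ω)) gc (w + Q) (F.t ω) d b' := by
        intro b' hb2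
        refine ⟨?_, hb2.2⟩
        have e1 : b' none - F.t ω = (b' none - b none) + (b none - F.t ω) := by ring
        rw [e1]
        refine (abs_add_le _ _).trans ((add_le_add hb2.1 hb.1).trans (le_of_eq ?_))
        rw [pow_succ]
        field_simp
        ring
      have hsm : ∀ b', Pool.GEN.NBx c (Pool.END18.Gf F c G₀ (Pool.PB.ptr F J ω)) gc (w + Q + 1) (b none) d b' →
          |eval b' (G₂ (Pool.PB.ptr F J ω) - H₁ (Pool.KSAT.slam F w ω))| ≤ M := by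
        intro b' hb2
        have hb3 := hbig b' hb2
        have a1 := h.en.agr hK hDK hPt (hB ω hω) (hμ ω hω) hb3
        have a2 := h.en.near hPt (hB ω hω) (hν ω hω) hb3
        rw [map_sub, hM]
        have e1 : eval b' (G₂ (Pool.PB.ptr F J ω)) - eval b' (H₁ (Pool.KSAT.slam F w ω)) =
          (eval b' (G₂ (Pool.PB.ptr F J ω)) -
            eval b' (Pool.END18.Ht F c s K d w q₀ Q H₀ H₁ z₀ z₁ Pt (Pool.KSAT.slam F w ω))) +
          (eval b' (Pool.END18.Ht F c s K d w q₀ Q H₀ H₁ z₀ z₁ Pt (Pool.KSAT.slam F w ω)) -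
            eval b' (H₁ (Pool.KSAT.slam F w ω))) := by ring
        rw [e1]
        refine (abs_add_le _ _).trans ((add_le_add a1 a2).trans (le_of_eq ?_))
        ring
      have hdep : Pool.GEN.DepC c d (G₂ (Pool.PB.ptr F J ω) - H₁ (Pool.KSAT.slam F w ω)) := by
        intro b b' hn hb'
        rw [map_sub, map_sub, h.pG₂ _ b b' hn hb', h.pH₁ _ b b' hn hb']
      have hdeg : (G₂ (Pool.PB.ptr F J ω) - H₁ (Pool.KSAT.slam F w ω)).totalDegree ≤ Dc :=
        (totalDegree_sub _ _).trans (max_le (h.dG₂ _) (h.dH₁ _))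
      have g1 := hgr (e := e) h.inj (h.top.degG _) (h.top.depG _) hdep hdeg hM0 hsm hb.2
        (fun i hi k hk => h.top.lip ω (hB ω hω) i hi b (hb'.mono le_rfl hi.le) k hk) l hl
      have g2 := h.grd ω (hB ω hω) b hb' l hl
      obtain ⟨S, hS⟩ : ∃ S, S = (Finset.range d).sup gc := ⟨_, rfl⟩
      rw [← hS] at g1
      have hn : ∀ x : ℕ, Pool.W.GEN.nlp (fun j => if j < d then gc j else x) l d = max S x - x := by
        intro x
        unfold Pool.W.GEN.nlp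
        have e1 : (Finset.range (d + 1)).sup (fun j => if j < d then gc j else x) = max S x := by
          apply le_antisymm
          · refine Finset.sup_le fun j hj => ?_
            rw [Finset.mem_range] at hj
            show (if j < d then gc j else x) ≤ _
            split_ifs with hjd
            · refine le_trans ?_ (le_max_left _ _)
              rw [hS]
              exact Finset.le_sup (f := gc) (Finset.mem_range.2 (by omega))
            · exact le_max_right _ _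
          · refine max_le ?_ ?_
            · rw [hS]
              refine Finset.sup_le fun j hj => ?_
              rw [Finset.mem_range] at hj
              have := Finset.le_sup (f := fun j => if j < d then gc j else x)
                (Finset.mem_range.2 (show j < d + 1 by omega))
              simp only [if_pos (show j < d by omega)] at this
              exact this
            · have := Finset.le_sup (f := fun j => if j < d then gc j else x)
                (Finset.mem_range.2 (show d < d + 1 by omega))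
              simp only [if_neg (lt_irrefl d)] at this
              exact this
        simp only [e1, if_neg (lt_irrefl d)]
      rw [hn p] at g2
      rw [hn p']
      have e1 : pderiv (some (c l)) (G₂ (Pool.PB.ptr F J ω)) =
          pderiv (some (c l)) (G₂ (Pool.PB.ptr F J ω) - H₁ (Pool.KSAT.slam F w ω)) +
            pderiv (some (c l)) (H₁ (Pool.KSAT.slam F w ω)) := by
        rw [map_sub]
        ring
      rw [e1, map_add]
      refine (abs_add_le _ _).trans ((add_le_add g1 g2).trans ?_)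
      obtain ⟨v, hv⟩ : ∃ v, v = max S p' - p' := ⟨_, rfl⟩
      rw [← hv]
      have k1 : (2 : ℝ) ^ (e + (max S p - p)) ≤ 2 ^ (e' + v) / 2 := by
        rw [le_div_iff₀ (by norm_num), ← pow_succ]
        refine pow_le_pow_right₀ (by norm_num) ?_
        omega
      have k2 : C₀ * M * 2 ^ (e + S) ≤ 2 ^ (e' + v) / 2 := by
        have k3 : C * 2 ^ (X * K * d) * (μ + ν) * 2 ^ (e + p') =
            2 * (C₀ * M * 2 ^ e) * 2 ^ p' * 2 ^ s d := by
          rw [hM, hC, pow_add]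
          field_simp
        rw [k3] at h2
        have k4 : 2 * (C₀ * M * 2 ^ e) * 2 ^ p' ≤ 2 ^ e' :=
          le_of_mul_le_mul_right h2 (by positivity)
        have k5 : (2 : ℝ) ^ S ≤ 2 ^ p' * 2 ^ v := by
          rw [← pow_add]
          refine pow_le_pow_right₀ (by norm_num) ?_
          omega
        have k6 : 0 ≤ C₀ * M * 2 ^ e := by positivity
        calc C₀ * M * 2 ^ (e + S) = C₀ * M * 2 ^ e * 2 ^ S := by rw [pow_add]; ring
          _ ≤ C₀ * M * 2 ^ e * (2 ^ p' * 2 ^ v) := mul_le_mul_of_nonneg_left k5 k6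
          _ = 2 * (C₀ * M * 2 ^ e) * 2 ^ p' * (2 ^ v / 2) := by ring
          _ ≤ 2 ^ e' * (2 ^ v / 2) := mul_le_mul_of_nonneg_right k4 (by positivity)
          _ = 2 ^ (e' + v) / 2 := by rw [pow_add]; ring
      linarith

end det

end Pool.W.END18
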