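import Pool.Agent.H18.D2.Enf
import Pool.Agent.H31.W3.H18.D2.End
import Pool.Agent.H31.W.H18.D2.End
import Pool.Agent.H31.W.H18.D2.Enf
import Pool.Agent.H31.W.H46.D2.NoLb
import Pool.Agent.H31.W1.H80.GEN.Chn

/-!
# The end: the labels of the tube on the window of the ball

`en_coef`: the differences of the chart of the ball and the tube labels at the nodes are small at
most times of the window of the ball, hence they are small polynomials. `end_fam`: the label of the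
target.
-/

set_option autoImplicit false

namespace Pool.W.END18

open Pool.END18

open Finset Real MvPolynomial
open Pool.Agent.H49.Ent Pool.Agent.H32.Dense Pool.STK Pool.KA Pool.KSAT Pool.K2S Pool.PB Pool.S6C
open Pool.GEN Pool.CHT Pool.D2R Pool.D2G30 Pool.V1E Pool.ISO
open Pool.PB.Trl (rt rt_mem t_rt)
open Pool.NLB46 (Lab)
open Pool.BFL (Pb)

section law

variable {m J : ℕ} {F : Pool.KA.Fam m J} {c : ℕ → Fin m} {s gc : ℕ → ℕ} {K d Dc D w q₀ Q e X p : ℕ}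
  {A : F.Ω → Prop} {G₀ : Pool.GEN.PtT F → ℕ → MvPolynomial (Option (Fin m)) ℝ}
  {G₂ : Pool.GEN.PtT F → MvPolynomial (Option (Fin m)) ℝ}
  {H₀ : Pool.GEN.LnT F → ℕ → MvPolynomial (Option (Fin m)) ℝ}
  {H₁ H₂ : Pool.GEN.LnT F → MvPolynomial (Option (Fin m)) ℝ} {z₀ z₁ : Pool.GEN.LnT F → Fin d → ℝ}


end law


/-- **The end.** From tube labels of the precision of the balls to a label of the target, closed on
the window `w`, on the natural boxes of the radius `w + Q + 1`. -/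
theorem end_fam (d Dc K D : ℕ) (hd : 1 ≤ d) (hK : 1 ≤ K) (hDK : Dc * (Dc + 1) ^ d ≤ K) {ε : ℝ}
    (hε : 0 < ε) : ∃ C₀ : ℕ, ∃ δ : ℝ, 0 < δ ∧ δ ≤ ε ∧ ∃ Q₀ : ℕ, ∀ {m J : ℕ} {F : Pool.KA.Fam m J}
    {c : ℕ → Fin m} {s gc : ℕ → ℕ} {w q₀ Q e e' X p p' MB : ℕ} {A : F.Ω → Prop}
    {G₀ : Pool.GEN.PtT F → ℕ → MvPolynomial (Option (Fin m)) ℝ}
    {G₂ : Pool.GEN.PtT F → MvPolynomial (Option (Fin m)) ℝ}
    {H₀ : Pool.GEN.LnT F → ℕ → MvPolynomial (Option (Fin m)) ℝ}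
    {H₁ H₂ : Pool.GEN.LnT F → MvPolynomial (Option (Fin m)) ℝ} {z₀ z₁ : Pool.GEN.LnT F → Fin d → ℝ}
    {ζ : Type} {Z : F.Ω → ζ} {Pf : ζ → MvPolynomial (Fin d) ℝ} {s' k : F.Ω → Fin d → ℝ}
    {ξ : Pool.GEN.LnT F → Fin d → ℝ} {n : Pool.GEN.LnT F → Polynomial ℝ} {Pt : Pool.GEN.LnT F → Pool.V1E.Gr K d → Polynomial ℝ},
    Q₀ ≤ Q → Q ≤ MB → w + 2 * Q ≤ J → 0 < Pool.K2S.Pe F.p A →
    Pool.W.END18.EH F c s gc d Dc w q₀ Q e X p A G₀ G₂ H₀ H₁ H₂ z₀ z₁ →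
    (∀ z, (Pf z).totalDegree ≤ K) →
    (∀ ω, A ω → 0 < F.p ω → ∀ β : Pool.V1E.Gr K d, |eval (Pool.D2G30.nd K β) (Pf (Z ω))| ≤ 2 ^ (δ * Q)) →
    (∀ ω, A ω → 0 < F.p ω → ∀ i, |s' ω i| ≤ 1) →
    (∀ ω, A ω → 0 < F.p ω → Pf (Z ω) = C (2 ^ s d) * Pool.D2G30.tub (F.t ω) (fun i => k ω i / 2 ^ Q)
      (1 / 2 ^ Q) (Pool.D2G30.pull c s (Pool.V1E.frH F d q₀ H₀ (Pool.KSAT.slam F w ω)) d
        (H₂ (Pool.KSAT.slam F (w + Q) ω) - H₁ (Pool.KSAT.slam F w ω)))) →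
    (∀ ω, A ω → 0 < F.p ω → ∀ i, |k ω i + s' ω i -
      (z₀ (Pool.KSAT.slam F w ω) i + z₁ (Pool.KSAT.slam F w ω) i * Pool.PB.Trl.rt F w ω)| ≤ 2 ^ (δ * Q) / 2 ^ MB) →
    Pool.V1E.ImC K d D Q MB (2 ^ (J - w)) δ (Pool.Agent.H49.Ent.cond F.p A True) (Pool.KSAT.slam F w) (Pool.V1E.twF F w) Z Pf
      s' ξ n Pt →
    (J : ℝ) * Real.log 2 - δ * Q ≤ Pool.Agent.H49.Ent.CH (Pool.Agent.H49.Ent.cond F.p A True) F.T
      (fun ω => (F.l ω, F.Z ω)) →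
    p' ≤ p → e + 1 ≤ e' → (p' : ℝ) + (X * K * d + C₀ : ℕ) + ε * Q ≤ s d + MB →
    (e : ℝ) + p' + (X * K * d + C₀ : ℕ) + ε * Q ≤ e' + s d →
    ∃ B : F.Ω → Prop, Pool.K2S.Sub B A ∧ Pool.K2S.Pe F.p A ≤ 2 * Pool.K2S.Pe F.p B ∧
      Pool.W.GEN.ChOK F c d (fun _ => Dc) (w + Q + 1) w e' gc B (Pool.END18.Gf F c G₀)
        (fun L l => Pool.END18.Hf F c H₀ (Pool.D2R.co q₀ L) l) ∧
      Pool.W.NLB46.Lab F c d (Dc + d * (K * Dc) + D) (w + Q + 1) w e' p' gc (Pool.END18.Gf F c G₀) B G₂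
        (Pool.END18.Ht F c s K d w q₀ Q H₀ H₁ z₀ z₁ Pt) := by
  obtain ⟨C₁, hC₁, hlab⟩ := Pool.W.END18.en_lab d Dc K D hd hK hDK
  obtain ⟨δ, hδ0, hδε, Q₀, hcoef⟩ := Pool.W.END18.en_coefN d Dc K D hK hDK hε
  obtain ⟨C₂, hC₂⟩ := pow_unbounded_of_one_lt (2 * C₁) (show (1 : ℝ) < 2 by norm_num)
  refine ⟨C₂, δ, hδ0, hδε, Q₀, ?_⟩
  intro m J F c s gc w q₀ Q e e' X p p' MB A G₀ G₂ H₀ H₁ H₂ z₀ z₁ ζ Z Pf s' k ξ n Pt hQ hMB hwJ2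
    hA h hdgf hbdf hs1 hPf hks hIm htf hp he h1 h2
  obtain ⟨B, b1, b2, b3, b4⟩ := hcoef hQ hMB hwJ2 hA h.en hdgf hbdf hs1 hPf hks hIm htf
  obtain ⟨μ, hμ⟩ : ∃ μ : ℝ, μ = 2 ^ (ε * Q) / 2 ^ MB := ⟨_, rfl⟩
  obtain ⟨ν, hν⟩ : ∃ ν : ℝ, ν = 2 ^ (ε * Q) := ⟨_, rfl⟩
  have hν0 : 0 < ν := by rw [hν]; positivity
  have hμ0 : 0 < μ := by rw [hμ]; positivity
  have hμν : μ ≤ ν := by
    rw [hμ, hν]
    exact div_le_self (by positivity) (one_le_pow₀ (by norm_num))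
  have key1 : C₁ * 2 ^ (X * K * d) * μ * 2 ^ p' ≤ 2 ^ s d := by
    have e1 : C₁ * 2 ^ (X * K * d) * μ * 2 ^ p' ≤
        2 ^ C₂ * 2 ^ (X * K * d) * μ * 2 ^ p' := by
      have : C₁ ≤ 2 ^ C₂ := by linarith
      exact mul_le_mul_of_nonneg_right (mul_le_mul_of_nonneg_right
        (mul_le_mul_of_nonneg_right this (by positivity)) hμ0.le) (by positivity)
    refine e1.trans ?_
    have e2 : (2 : ℝ) ^ C₂ * 2 ^ (X * K * d) * μ * 2 ^ p' =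
        2 ^ (((p' : ℝ) + (X * K * d + C₂ : ℕ) + ε * Q) - MB) := by
      rw [Real.rpow_sub (by norm_num), Real.rpow_add (by norm_num), Real.rpow_add (by norm_num),
        Real.rpow_natCast, Real.rpow_natCast, Real.rpow_natCast, hμ, pow_add]
      ring
    rw [e2, ← Real.rpow_natCast 2 (s d)]
    exact Real.rpow_le_rpow_of_exponent_le (by norm_num) (by linarith)
  have key2 : C₁ * 2 ^ (X * K * d) * (μ + ν) * 2 ^ (e + p') ≤ 2 ^ e' * 2 ^ s d := by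
    have e1 : C₁ * 2 ^ (X * K * d) * (μ + ν) * 2 ^ (e + p') ≤
        2 ^ C₂ * 2 ^ (X * K * d) * ν * 2 ^ (e + p') := by
      have h3 : C₁ * (μ + ν) ≤ 2 ^ C₂ * ν := by nlinarith
      have h4 : C₁ * 2 ^ (X * K * d) * (μ + ν) * 2 ^ (e + p') =
          C₁ * (μ + ν) * (2 ^ (X * K * d) * 2 ^ (e + p')) := by ring
      have h5 : (2 : ℝ) ^ C₂ * 2 ^ (X * K * d) * ν * 2 ^ (e + p') =
          2 ^ C₂ * ν * (2 ^ (X * K * d) * 2 ^ (e + p')) := by ring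
      rw [h4, h5]
      exact mul_le_mul_of_nonneg_right h3 (by positivity)
    refine e1.trans ?_
    have e2 : (2 : ℝ) ^ C₂ * 2 ^ (X * K * d) * ν * 2 ^ (e + p') =
        2 ^ ((e : ℝ) + p' + (X * K * d + C₂ : ℕ) + ε * Q) := by
      rw [Real.rpow_add (by norm_num), Real.rpow_add (by norm_num), Real.rpow_add (by norm_num),
        Real.rpow_natCast, Real.rpow_natCast, Real.rpow_natCast, hν, pow_add, pow_add]
      ring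
    have e3 : (2 : ℝ) ^ e' * 2 ^ s d = 2 ^ ((e' : ℝ) + s d) := by
      rw [Real.rpow_add (by norm_num), Real.rpow_natCast, Real.rpow_natCast]
    rw [e2, e3]
    exact Real.rpow_le_rpow_of_exponent_le (by norm_num) h2
  obtain ⟨k1, k2⟩ := hlab h b1 hIm.deg (by rw [hμ]; exact b3) (by rw [hν]; exact b4) hp he key1
    key2
  exact ⟨B, b1, b2, k1, k2⟩

end Pool.W.END18
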